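import Pool.Agent.Q83.Riesz3

/-!
# A non-orthogonal Riesz wavelet collection whose dilates cover with varying multiplicity

On the line, with dilations by the powers of two, the three sets `[1,2)`, `[2,3)`, `[-2,-1)` with
the lattices `2ℤ`, `ℤ`, `ℤ` form a Riesz wavelet collection which is not orthogonal; almost every
frequency is covered once or twice, and both happen on sets of positive measure.
-/

set_option autoImplicit false
set_option linter.unusedSectionVars false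
open MeasureTheory
open scoped FourierTransform ENNReal

namespace Pool.Agent.Results.MP_38bcdd_an.Dyadic

open Q83.Riesz3 Q83.Msf Pool.Agent.Helper704.RW Pool.Agent.Helper704

/-- The Hilbert space of square integrable functions on the line. -/
noncomputable abbrev L2 := Lp ℂ 2 (volume : Measure ℝ)

/-- The wavelet system on the group of real numbers. The automorphisms are the multiplications by
the units `a` of `ℝ`, the functions `ψ i` have Fourier transform the indicator function of `Ω i`,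
and the element of `f` with index `t = ((i, l), a)` is `x ↦ |a|^(1/2) ψ_i(a x - l)`. -/
def IsWaveletSystem {m : ℕ} (Ω Λ : Fin m → Set ℝ) (A : Set ℝˣ) (f : (Σ i, Λ i) × A → L2) :
    Prop :=
  ∃ ψ : Fin m → L2,
    (∀ i, ((𝓕 (ψ i) : L2) : ℝ → ℂ) =ᵐ[volume] (Ω i).indicator fun _ => (1 : ℂ)) ∧
    ∀ t : (Σ i, Λ i) × A, (f t : ℝ → ℂ) =ᵐ[volume] fun x =>
      ((Real.sqrt |((t.2 : ℝˣ) : ℝ)| : ℝ) : ℂ) *
        (ψ t.1.1 : ℝ → ℂ) (((t.2 : ℝˣ) : ℝ) * x - (t.1.2 : ℝ))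

/-- Riesz wavelet collection: the sets `Ω i` are measurable, of finite positive measure and
pairwise disjoint, the sets `Λ i` and `A` are countable, and the wavelet system `f` is a Riesz
basis. -/
def IsRieszCollection {m : ℕ} (Ω Λ : Fin m → Set ℝ) (A : Set ℝˣ) (f : (Σ i, Λ i) × A → L2) :
    Prop :=
  (∀ i, MeasurableSet (Ω i) ∧ 0 < volume (Ω i) ∧ volume (Ω i) < ⊤) ∧
  (∀ i j, i ≠ j → Disjoint (Ω i) (Ω j)) ∧ (∀ i, (Λ i).Countable) ∧ A.Countable ∧
  IsWaveletSystem Ω Λ A f ∧ IsRieszBasis f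

/-- The sets `a Ω`, `a ∈ A`, cover almost every point exactly `k` times. -/
def MultTiling (Ω : Set ℝ) (A : Set ℝˣ) (k : ℕ) : Prop :=
  ∀ᵐ ξ : ℝ, ∑' a : A, ((fun x => ((a : ℝˣ) : ℝ) * x) '' Ω).indicator (fun _ => (1 : ℝ≥0∞)) ξ = k

/-- The three sets. -/
def Om : Fin 3 → Set ℝ := ![Set.Ico 1 2, II 2, II (-2)]

/-- The factors of the lattices. -/
def mu : Fin 3 → ℤ := ![2, 1, 1]

lemma mu_ne (i : Fin 3) : mu i ≠ 0 := by fin_cases i <;> simp [mu]

/-- The three lattices. -/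
def La (i : Fin 3) : Set ℝ := Set.range fun k : ℤ => ((mu i * k : ℤ) : ℝ)

/-- The dilation by two. -/
noncomputable def u2 : ℝˣ := Units.mk0 2 two_ne_zero

/-- The dyadic dilations. -/
noncomputable def AA : Set ℝˣ := Set.range fun n : ℤ => u2 ^ n

lemma u2_val (n : ℤ) : ((u2 ^ n : ℝˣ) : ℝ) = 2 ^ n := by
  rw [Units.val_zpow_eq_zpow_val]; rfl

lemma u2_inj : Function.Injective fun n : ℤ => u2 ^ n := by
  intro n m h
  have h1 : ((2 : ℝ)) ^ n = 2 ^ m := by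
    rw [← u2_val, ← u2_val]
    exact congrArg Units.val h
  exact zpow_right_injective₀ (by norm_num) (by norm_num) h1

/-- The parametrisation of the index set. -/
noncomputable def phi (q : Fin 3 × (ℤ × ℤ)) : (Σ i, La i) × AA :=
  (⟨q.1, ⟨((mu q.1 * q.2.2 : ℤ) : ℝ), ⟨q.2.2, rfl⟩⟩⟩, ⟨u2 ^ q.2.1, ⟨q.2.1, rfl⟩⟩)

lemma phi_bij : Function.Bijective phi := by
  constructor
  · rintro ⟨i, n, k⟩ ⟨i', n', k'⟩ h
    have h1 : i = i' := congrArg (fun t => t.1.1) h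
    subst h1
    have h2 : ((mu i * k : ℤ) : ℝ) = ((mu i * k' : ℤ) : ℝ) :=
      congrArg (fun t => ((t.1.2 : La t.1.1) : ℝ)) h
    have h3 : mu i * k = mu i * k' := by exact_mod_cast h2
    have h4 : k = k' := mul_left_cancel₀ (mu_ne i) h3
    have h5 : u2 ^ n = u2 ^ n' := congrArg (fun t => ((t.2 : AA) : ℝˣ)) h
    have h6 : n = n' := u2_inj h5
    rw [h4, h6]
  · rintro ⟨⟨i, ⟨l, k, hk⟩⟩, ⟨a, n, hn⟩⟩
    subst hk
    subst hn
    exact ⟨(i, n, k), rfl⟩

noncomputable def phiE : Fin 3 × (ℤ × ℤ) ≃ (Σ i, La i) × AA := Equiv.ofBijective phi phi_bij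

lemma measurable_Om (i : Fin 3) : MeasurableSet (Om i) := by
  fin_cases i
  · exact measurableSet_Ico
  · exact measurableSet_II _
  · exact measurableSet_II _

lemma vol_Om (i : Fin 3) : volume (Om i) = 1 := by
  fin_cases i
  · simp [Om]; norm_num
  · simp [Om, II]
  · simp [Om, II]

/-- The generators on the frequency side. -/
noncomputable def hpsi (i : Fin 3) : L2 :=
  (memLp_ind' (measurable_Om i) (by rw [vol_Om]; exact ENNReal.one_ne_top)).toLp _

/-- The generators. -/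
noncomputable def psi (i : Fin 3) : L2 := 𝓕⁻ (hpsi i)

lemma fourier_psi (i : Fin 3) : 𝓕 (psi i) = hpsi i := FourierTransform.fourier_fourierInv_eq _

/-- The system. -/
noncomputable def FF (q : Fin 3 × (ℤ × ℤ)) : L2 := Ds (q.2.1, mu q.1 * q.2.2) (psi q.1)

noncomputable def ff (t : (Σ i, La i) × AA) : L2 := FF (phiE.symm t)

lemma system : IsWaveletSystem Om La AA ff := by
  refine ⟨psi, fun i => ?_, fun t => ?_⟩
  · rw [fourier_psi]
    exact MemLp.coeFn_toLp _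
  · obtain ⟨⟨i, n, k⟩, rfl⟩ := phiE.surjective t
    unfold ff
    rw [Equiv.symm_apply_apply]
    have h := coeFn_wco (dy n) ((mu i * k : ℤ) : ℝ) (wT (dy n)) (wt_wT _) (psi i)
    refine h.trans (Filter.Eventually.of_forall fun x => ?_)
    simp only
    have h1 : (((phiE (i, n, k)).2 : ℝˣ) : ℝ) = 2 ^ n := u2_val n
    have h2 : ((phiE (i, n, k)).1.2 : ℝ) = ((mu i * k : ℤ) : ℝ) := rfl
    have h3 : (phiE (i, n, k)).1.1 = i := rfl
    rw [h1, h2]
    unfold wT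
    rw [adet_dy, dy_apply, abs_of_pos (by positivity)]
    rfl

/-- The intervals of the auxiliary orthonormal basis. -/
def cc : Fin 3 → ℤ := ![3, 2, -2]

lemma mem_range {n : ℤ} {ξ : ℝ} (i : Fin 3) (h : (2:ℝ) ^ (-n) * ξ ∈ II (cc i)) :
    ((i = 0 ∧ 3 ≤ (2:ℝ) ^ (-n) * ξ ∧ (2:ℝ) ^ (-n) * ξ < 4) ∨
      (i = 1 ∧ 2 ≤ (2:ℝ) ^ (-n) * ξ ∧ (2:ℝ) ^ (-n) * ξ < 3) ∨
      (i = 2 ∧ -2 ≤ (2:ℝ) ^ (-n) * ξ ∧ (2:ℝ) ^ (-n) * ξ < -1)) := by
  fin_cases i
  · left
    refine ⟨rfl, ?_⟩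
    generalize (2:ℝ) ^ (-n) * ξ = w at h ⊢
    simp only [cc, II, Set.mem_Ico] at h
    norm_num at h
    exact ⟨h.1, h.2⟩
  · right; left
    refine ⟨rfl, ?_⟩
    generalize (2:ℝ) ^ (-n) * ξ = w at h ⊢
    simp only [cc, II, Set.mem_Ico] at h
    norm_num at h
    exact ⟨h.1, h.2⟩
  · right; right
    refine ⟨rfl, ?_⟩
    generalize (2:ℝ) ^ (-n) * ξ = w at h ⊢
    simp only [cc, II, Set.mem_Ico] at h
    norm_num at h
    exact ⟨h.1, h.2⟩

/-- Dyadic scales are determined by membership in `[2, 4)` in absolute value. -/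
lemma scale_unique {y : ℝ} {a b : ℝ} (hab : b = 2 * a) {n m : ℤ}
    (h1 : a ≤ (2:ℝ) ^ n * y) (h2 : (2:ℝ) ^ n * y < b) (h3 : a ≤ (2:ℝ) ^ m * y)
    (h4 : (2:ℝ) ^ m * y < b) (ha : 0 < a) : n = m := by
  have key : ∀ n m : ℤ, n < m → a ≤ (2:ℝ) ^ n * y → (2:ℝ) ^ m * y < b → False := by
    intro n m hlt e1 e2
    obtain ⟨k, hk⟩ := Int.le.dest (Int.add_one_le_iff.2 hlt)
    have e3 : (2:ℝ) ^ m = 2 * 2 ^ k * 2 ^ n := by
      rw [← hk, zpow_add₀ (by norm_num), zpow_add₀ (by norm_num)]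
      simp
      ring
    have e4 : (1:ℝ) ≤ 2 ^ k := one_le_pow₀ (by norm_num)
    rw [e3] at e2
    have e5 : (2:ℝ) * 2 ^ k * 2 ^ n * y = 2 * 2 ^ k * (2 ^ n * y) := by ring
    rw [e5] at e2
    have e6 : 2 * a ≤ 2 * 2 ^ k * (2 ^ n * y) := by
      nlinarith [mul_le_mul e4 e1 ha.le (by positivity)]
    linarith
  rcases lt_trichotomy n m with h | h | h
  · exact (key n m h h1 h4).elim
  · exact h
  · exact (key m n h h3 h2).elim

lemma scale_unique' {y : ℝ} {a b : ℝ} (hab : b = 2 * a) {n m : ℤ}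
    (h1 : a < (2:ℝ) ^ n * y) (h2 : (2:ℝ) ^ n * y ≤ b) (h3 : a < (2:ℝ) ^ m * y)
    (h4 : (2:ℝ) ^ m * y ≤ b) (_ha : 0 < a) : n = m := by
  have key : ∀ n m : ℤ, n < m → a < (2:ℝ) ^ n * y → (2:ℝ) ^ m * y ≤ b → False := by
    intro n m hlt e1 e2
    obtain ⟨k, hk⟩ := Int.le.dest (Int.add_one_le_iff.2 hlt)
    have e3 : (2:ℝ) ^ m = 2 * 2 ^ k * 2 ^ n := by
      rw [← hk, zpow_add₀ (by norm_num), zpow_add₀ (by norm_num)]
      simp
      ring
    have e4 : (1:ℝ) ≤ 2 ^ k := one_le_pow₀ (by norm_num)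
    rw [e3] at e2
    have e5 : (2:ℝ) * 2 ^ k * 2 ^ n * y = 2 * 2 ^ k * (2 ^ n * y) := by ring
    rw [e5] at e2
    have e6 : (2:ℝ) ^ n * y ≤ 2 ^ k * (2 ^ n * y) :=
      le_mul_of_one_le_left (by linarith) e4
    linarith
  rcases lt_trichotomy n m with h | h | h
  · exact (key n m h h1 h4).elim
  · exact h
  · exact (key m n h h3 h2).elim

lemma hdis (ξ : ℝ) (i i' : Fin 3) (j j' : ℤ) (h : (2:ℝ) ^ (-j) * ξ ∈ II (cc i))
    (h' : (2:ℝ) ^ (-j') * ξ ∈ II (cc i')) : i = i' ∧ j = j' := by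
  have hp : (0:ℝ) < 2 ^ (-j) := by positivity
  have hp' : (0:ℝ) < 2 ^ (-j') := by positivity
  have pos : ∀ {n : ℤ} {a : ℝ}, 0 < a → a ≤ (2:ℝ) ^ (-n) * ξ → 0 < ξ := by
    intro n a ha hle
    have : (0:ℝ) < 2 ^ (-n) := by positivity
    by_contra hcon
    push Not at hcon
    nlinarith [mul_nonneg_of_nonpos_of_nonpos (neg_nonpos.2 this.le) hcon]
  have neg : ∀ {n : ℤ}, (2:ℝ) ^ (-n) * ξ < -1 → ξ < 0 := by
    intro n hle
    have : (0:ℝ) < 2 ^ (-n) := by positivity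
    by_contra hcon
    push Not at hcon
    nlinarith [mul_nonneg this.le hcon]
  rcases mem_range i h with ⟨hi, a1, a2⟩ | ⟨hi, a1, a2⟩ | ⟨hi, a1, a2⟩ <;>
    rcases mem_range i' h' with ⟨hi', b1, b2⟩ | ⟨hi', b1, b2⟩ | ⟨hi', b1, b2⟩
  · refine ⟨by rw [hi, hi'], ?_⟩
    have := scale_unique (a := 2) (b := 4) (by norm_num) (by linarith) a2 (by linarith) b2
      (by norm_num)
    omega
  · exfalso
    have := scale_unique (a := 2) (b := 4) (by norm_num) (by linarith) a2 b1 (by linarith)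
      (by norm_num)
    rw [this] at a1
    linarith
  · exact absurd (pos (by norm_num : (0:ℝ) < 3) a1) (not_lt.2 (neg b2).le)
  · exfalso
    have := scale_unique (a := 2) (b := 4) (by norm_num) a1 (by linarith) (by linarith) b2
      (by norm_num)
    rw [this] at a2
    linarith
  · refine ⟨by rw [hi, hi'], ?_⟩
    have := scale_unique (a := 2) (b := 4) (by norm_num) a1 (by linarith) b1 (by linarith)
      (by norm_num)
    omega
  · exact absurd (pos (by norm_num : (0:ℝ) < 2) a1) (not_lt.2 (neg b2).le)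
  · exact absurd (pos (by norm_num : (0:ℝ) < 3) b1) (not_lt.2 (neg a2).le)
  · exact absurd (pos (by norm_num : (0:ℝ) < 2) b1) (not_lt.2 (neg a2).le)
  · refine ⟨by rw [hi, hi'], ?_⟩
    have := scale_unique' (y := -ξ) (a := 1) (b := 2) (n := -j) (m := -j') (by norm_num)
      (by linarith) (by linarith) (by linarith) (by linarith) (by norm_num)
    omega

lemma hcov (ξ : ℝ) (hξ : ξ ≠ 0) : ∃ (i : Fin 3) (j : ℤ), (2:ℝ) ^ (-j) * ξ ∈ II (cc i) := by
  rcases lt_or_gt_of_ne hξ with h | h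
  · -- negative
    obtain ⟨n, hn1, hn2⟩ := exists_mem_Ioc_zpow (x := -ξ) (y := (2:ℝ)) (by linarith) (by norm_num)
    refine ⟨2, n, ?_⟩
    have hp : (0:ℝ) < 2 ^ (-n) := by positivity
    have e1 : (2:ℝ) ^ (-n) * 2 ^ n = 1 := by
      rw [← zpow_add₀ (by norm_num)]; simp
    have e2 : (2:ℝ) ^ (-n) * 2 ^ (n + 1) = 2 := by
      rw [← zpow_add₀ (by norm_num)]; simp
    have k1 : 1 < (2:ℝ) ^ (-n) * -ξ := by
      have := mul_lt_mul_of_pos_left hn1 hp
      rwa [e1] at this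
    have k2 : (2:ℝ) ^ (-n) * -ξ ≤ 2 := by
      have := mul_le_mul_of_nonneg_left hn2 hp.le
      rwa [e2] at this
    rw [mul_neg] at k1 k2
    generalize (2:ℝ) ^ (-n) * ξ = w at *
    have hc : cc 2 = -2 := rfl
    rw [hc, II, Set.mem_Ico]
    push_cast
    constructor <;> linarith
  · obtain ⟨n, hn1, hn2⟩ := exists_mem_Ico_zpow (x := ξ) (y := (2:ℝ)) h (by norm_num)
    have e1 : (2:ℝ) ^ (-(n - 1)) * 2 ^ n = 2 := by
      rw [← zpow_add₀ (by norm_num)]; simp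
    have e2 : (2:ℝ) ^ (-(n - 1)) * 2 ^ (n + 1) = 4 := by
      rw [← zpow_add₀ (by norm_num)]
      have : -(n - 1) + (n + 1) = 2 := by ring
      rw [this]; norm_num
    have hp : (0:ℝ) < 2 ^ (-(n - 1)) := by positivity
    have k1 : 2 ≤ (2:ℝ) ^ (-(n - 1)) * ξ := by
      have := mul_le_mul_of_nonneg_left hn1 hp.le
      rwa [e1] at this
    have k2 : (2:ℝ) ^ (-(n - 1)) * ξ < 4 := by
      have := mul_lt_mul_of_pos_left hn2 hp
      rwa [e2] at this
    rcases lt_or_ge ((2:ℝ) ^ (-(n - 1)) * ξ) 3 with h3 | h3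
    · refine ⟨1, n - 1, ?_⟩
      generalize (2:ℝ) ^ (-(n - 1)) * ξ = w at *
      simp only [cc, II, Set.mem_Ico]
      norm_num
      exact ⟨k1, h3⟩
    · refine ⟨0, n - 1, ?_⟩
      generalize (2:ℝ) ^ (-(n - 1)) * ξ = w at *
      simp only [cc, II, Set.mem_Ico]
      norm_num
      exact ⟨h3, k2⟩

lemma eI_coe (i : Fin 3) (p : ℤ × ℤ) :
    eI cc (i, p) = (memLp_fq p (memLp_ind' (measurableSet_II (cc i)) (vol_II _))).toLp _ := by
  unfold eI
  rw [Dh_toLp]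

/-- The shift of the scale. -/
def tau : ℤ × ℤ ≃ ℤ × ℤ where
  toFun p := (p.1 - 1, p.2)
  invFun p := (p.1 + 1, p.2)
  left_inv p := by simp
  right_inv p := by simp

lemma g0 (p : ℤ × ℤ) : 𝓕 (FF (0, p)) =
    ((Real.sqrt (1 / 2) : ℝ) : ℂ) • (eI cc (0, tau p) + eI cc (1, tau p)) := by
  obtain ⟨n, k⟩ := p
  unfold FF
  rw [fourier_Ds, fourier_psi]
  unfold hpsi
  rw [Dh_toLp, eI_coe, eI_coe, ← MemLp.toLp_add, ← MemLp.toLp_const_smul]
  apply MemLp.toLp_congr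
  refine Filter.Eventually.of_forall fun ξ => ?_
  simp only [Pi.smul_apply, Pi.add_apply, smul_eq_mul]
  unfold fq
  have t1 : (tau (n, k)).1 = n - 1 := rfl
  have t2 : (tau (n, k)).2 = k := rfl
  rw [t1, t2]
  have e1 : (2:ℝ) ^ (-(n - 1)) * ξ = 2 * ((2:ℝ) ^ (-n) * ξ) := by
    have : -(n - 1) = 1 + -n := by ring
    rw [this, zpow_add₀ (by norm_num), zpow_one]; ring
  have e2 : (2:ℝ) ^ (-(n - 1)) = 2 * (2:ℝ) ^ (-n) := by
    have : -(n - 1) = 1 + -n := by ring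
    rw [this, zpow_add₀ (by norm_num), zpow_one]
  rw [e1]
  simp only [e2]
  set w := (2:ℝ) ^ (-n) * ξ with hw
  have e3 : ex (mu 0 * k) w = ex k (2 * w) := by
    unfold ex
    congr 2
    have : ((mu 0 * k : ℤ) : ℝ) = 2 * k := by simp [mu]
    rw [this]
    push_cast
    ring
  have e4 : Real.sqrt (1 / 2) * Real.sqrt (2 * (2:ℝ) ^ (-n)) = Real.sqrt ((2:ℝ) ^ (-n)) := by
    rw [← Real.sqrt_mul (by norm_num)]
    congr 1
    ring
  have e5 : (Om 0).indicator (fun _ => (1 : ℂ)) w =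
      (II (cc 0)).indicator (fun _ => (1 : ℂ)) (2 * w) +
        (II (cc 1)).indicator (fun _ => (1 : ℂ)) (2 * w) := by
    have m0 : w ∈ Om 0 ↔ 1 ≤ w ∧ w < 2 := Iff.rfl
    have m1 : 2 * w ∈ II (cc 0) ↔ 3 ≤ 2 * w ∧ 2 * w < 4 := by
      simp only [cc, II, Set.mem_Ico]; norm_num
    have m2 : 2 * w ∈ II (cc 1) ↔ 2 ≤ 2 * w ∧ 2 * w < 3 := by
      simp only [cc, II, Set.mem_Ico]; norm_num
    by_cases c0 : w ∈ Om 0
    · rw [Set.indicator_of_mem c0]
      obtain ⟨a, b⟩ := m0.1 c0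
      rcases lt_or_ge (2 * w) 3 with h | h
      · rw [Set.indicator_of_notMem (fun hh => by linarith [(m1.1 hh).1]),
          Set.indicator_of_mem (m2.2 ⟨by linarith, h⟩), zero_add]
      · rw [Set.indicator_of_mem (m1.2 ⟨h, by linarith⟩),
          Set.indicator_of_notMem (fun hh => by linarith [(m2.1 hh).2]), add_zero]
    · rw [Set.indicator_of_notMem c0, Set.indicator_of_notMem, Set.indicator_of_notMem, add_zero]
      · intro hh
        obtain ⟨a, b⟩ := m2.1 hh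
        exact c0 (m0.2 ⟨by linarith, by linarith⟩)
      · intro hh
        obtain ⟨a, b⟩ := m1.1 hh
        exact c0 (m0.2 ⟨by linarith, by linarith⟩)
  rw [e5, ← e4, ← e3]
  push_cast
  ring

lemma g12 (i : Fin 3) (hi : i ≠ 0) (p : ℤ × ℤ) : 𝓕 (FF (i, p)) = eI cc (i, p) := by
  obtain ⟨n, k⟩ := p
  unfold FF
  rw [fourier_Ds, fourier_psi]
  unfold hpsi
  rw [Dh_toLp, eI_coe]
  apply MemLp.toLp_congr
  refine Filter.Eventually.of_forall fun ξ => ?_
  have h1 : mu i * k = k := by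
    fin_cases i
    · exact absurd rfl hi
    · simp [mu]
    · simp [mu]
  have h2 : Om i = II (cc i) := by
    fin_cases i
    · exact absurd rfl hi
    · rfl
    · rfl
  simp only [h1, h2]

lemma rieszFF : IsRieszBasis FF := by
  have hon := orthonormal_eI cc hdis
  have hcomp := complete_eI cc hcov
  have h := riesz3 (eI cc) hon hcomp tau (fun q => 𝓕 (FF q)) (Real.sqrt (1 / 2))
    (by rw [Real.sq_sqrt (by norm_num)]) g0 (fun p => g12 1 (by decide) p)
    (fun p => g12 2 (by decide) p)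
  exact IsRieszBasis.of_isometry (Lp.fourierTransformₗᵢ ℝ ℂ) FF h

lemma rieszff : IsRieszBasis ff := by
  apply IsRieszBasis.reindex phiE
  have : (fun k => ff (phiE k)) = FF := by
    funext q
    unfold ff
    rw [Equiv.symm_apply_apply]
  rw [this]
  exact rieszFF

lemma not_orthogonal : ∃ s t, s ≠ t ∧ inner ℂ (ff s) (ff t) ≠ 0 := by
  refine ⟨phiE (0, 0, 0), phiE (1, -1, 0), fun h => ?_, ?_⟩
  · have := phiE.injective h
    simp at this
  · unfold ff
    rw [Equiv.symm_apply_apply, Equiv.symm_apply_apply]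
    have h1 : inner ℂ (FF (0, 0, 0)) (FF (1, -1, 0)) =
        inner ℂ (𝓕 (FF (0, 0, 0))) (𝓕 (FF (1, -1, 0))) :=
      ((Lp.fourierTransformₗᵢ ℝ ℂ).inner_map_map _ _).symm
    rw [h1, g0, g12 1 (by decide)]
    have h2 : tau (0, 0) = (-1, 0) := rfl
    have o := orthonormal_iff_ite.1 (orthonormal_eI cc hdis)
    rw [h2, inner_smul_left, inner_add_left, o, o, if_neg (by simp), if_pos rfl, zero_add, mul_one,
      Complex.conj_ofReal]
    have : Real.sqrt (1 / 2) ≠ 0 := (Real.sqrt_pos.2 (by norm_num)).ne'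
    exact_mod_cast this

/-- The union of the three sets. -/
lemma mem_union (x : ℝ) : x ∈ ⋃ i, Om i ↔ (1 ≤ x ∧ x < 3) ∨ (-2 ≤ x ∧ x < -1) := by
  rw [Set.mem_iUnion]
  constructor
  · rintro ⟨i, hi⟩
    fin_cases i
    · left
      obtain ⟨a, b⟩ := hi
      exact ⟨a, by linarith⟩
    · left
      simp only [Om, II] at hi
      norm_num at hi
      constructor <;> linarith [hi.1, hi.2]
    · right
      simp only [Om, II] at hi
      norm_num at hi
      exact hi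
  · rintro (⟨a, b⟩ | ⟨a, b⟩)
    · rcases lt_or_ge x 2 with h | h
      · exact ⟨0, a, h⟩
      · refine ⟨1, ?_⟩
        simp only [Om, II]
        exact ⟨by norm_num; exact h, by norm_num; exact b⟩
    · refine ⟨2, ?_⟩
      simp only [Om, II]
      exact ⟨by norm_num; exact a, by norm_num; exact b⟩

lemma mem_dil (n : ℤ) (ξ : ℝ) : ξ ∈ (fun x => ((u2 ^ n : ℝˣ) : ℝ) * x) '' (⋃ i, Om i) ↔
    (2:ℝ) ^ (-n) * ξ ∈ ⋃ i, Om i := by
  rw [u2_val]
  constructor
  · rintro ⟨x, hx, rfl⟩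
    simp only
    rwa [← mul_assoc, ← zpow_add₀ (by norm_num), neg_add_cancel, zpow_zero, one_mul]
  · intro h
    refine ⟨_, h, ?_⟩
    simp only
    rw [← mul_assoc, ← zpow_add₀ (by norm_num), add_neg_cancel, zpow_zero, one_mul]

/-- The covering function. -/
noncomputable def cov (ξ : ℝ) : ℝ≥0∞ :=
  ∑' a : AA, ((fun x => ((a : ℝˣ) : ℝ) * x) '' (⋃ i, Om i)).indicator (fun _ => (1 : ℝ≥0∞)) ξ

lemma cov_two {ξ : ℝ} (h1 : 1 < ξ) (h2 : ξ < 3 / 2) : 2 ≤ cov ξ := by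
  classical
  unfold cov
  have hne : (⟨u2 ^ (0:ℤ), ⟨0, rfl⟩⟩ : AA) ≠ ⟨u2 ^ (-1:ℤ), ⟨-1, rfl⟩⟩ := by
    intro h
    have := u2_inj (congrArg Subtype.val h)
    norm_num at this
  refine le_trans (le_of_eq ?_) (ENNReal.sum_le_tsum
    {(⟨u2 ^ (0:ℤ), ⟨0, rfl⟩⟩ : AA), ⟨u2 ^ (-1:ℤ), ⟨-1, rfl⟩⟩})
  rw [Finset.sum_pair hne, Set.indicator_of_mem, Set.indicator_of_mem]
  · norm_num
  · rw [mem_dil, mem_union]
    left
    norm_num
    constructor <;> linarith
  · rw [mem_dil, mem_union]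
    left
    norm_num
    constructor <;> linarith

lemma cov_one {ξ : ℝ} (h1 : 3 / 2 < ξ) (h2 : ξ < 2) : cov ξ = 1 := by
  classical
  unfold cov
  rw [tsum_eq_single (⟨u2 ^ (0:ℤ), ⟨0, rfl⟩⟩ : AA)]
  · rw [Set.indicator_of_mem]
    rw [mem_dil, mem_union]
    left
    norm_num
    constructor <;> linarith
  · rintro ⟨a, n, rfl⟩ hne
    rw [Set.indicator_of_notMem]
    rw [mem_dil, mem_union]
    have hp : (0:ℝ) < 2 ^ (-n) := by positivity
    rintro (⟨a1, a2⟩ | ⟨a1, a2⟩)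
    · have hn : n = 0 := by
        rcases lt_trichotomy n 0 with h | h | h
        · exfalso
          have e : (2:ℝ) ^ (1:ℤ) ≤ 2 ^ (-n) := zpow_le_zpow_right₀ (by norm_num) (by omega)
          rw [zpow_one] at e
          nlinarith
        · exact h
        · exfalso
          have e : (2:ℝ) ^ (-n) ≤ 2 ^ (-1:ℤ) := zpow_le_zpow_right₀ (by norm_num) (by omega)
          have e' : (2:ℝ) ^ (-1:ℤ) = 1 / 2 := by norm_num
          rw [e'] at e
          nlinarith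
      subst hn
      exact hne rfl
    · nlinarith [mul_pos hp (by linarith : (0:ℝ) < ξ)]

lemma not_tiling (k : ℕ) : ¬ MultTiling (⋃ i, Om i) AA k := by
  intro h
  have h' : ∀ᵐ ξ : ℝ, cov ξ = k := h
  have get : ∀ a b : ℝ, a < b → ∃ ξ, a < ξ ∧ ξ < b ∧ cov ξ = k := by
    intro a b hab
    by_contra hcon
    push Not at hcon
    have h1 : Set.Ioo a b ⊆ {ξ | ¬ cov ξ = k} := fun ξ hξ => hcon ξ hξ.1 hξ.2
    have h2 : volume (Set.Ioo a b) = 0 := measure_mono_null h1 (ae_iff.1 h')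
    rw [Real.volume_Ioo, ENNReal.ofReal_eq_zero] at h2
    linarith
  obtain ⟨x, a1, a2, a3⟩ := get 1 (3 / 2) (by norm_num)
  obtain ⟨y, b1, b2, b3⟩ := get (3 / 2) 2 (by norm_num)
  have c1 := cov_two a1 a2
  have c2 := cov_one b1 b2
  rw [a3] at c1
  rw [b3] at c2
  rw [c2] at c1
  norm_num at c1

lemma disj_Om (i j : Fin 3) (hij : i ≠ j) : Disjoint (Om i) (Om j) := by
  rw [Set.disjoint_left]
  intro x hi hj
  have r : ∀ i : Fin 3, x ∈ Om i → (i = 0 ∧ 1 ≤ x ∧ x < 2) ∨ (i = 1 ∧ 2 ≤ x ∧ x < 3) ∨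
      (i = 2 ∧ -2 ≤ x ∧ x < -1) := by
    intro i hi
    fin_cases i
    · exact Or.inl ⟨rfl, hi.1, hi.2⟩
    · simp only [Om, II] at hi
      norm_num at hi
      exact Or.inr (Or.inl ⟨rfl, hi.1, hi.2⟩)
    · simp only [Om, II] at hi
      norm_num at hi
      exact Or.inr (Or.inr ⟨rfl, hi.1, hi.2⟩)
  rcases r i hi with ⟨hi', a1, a2⟩ | ⟨hi', a1, a2⟩ | ⟨hi', a1, a2⟩ <;>
    rcases r j hj with ⟨hj', b1, b2⟩ | ⟨hj', b1, b2⟩ | ⟨hj', b1, b2⟩ <;>
    first
      | linarith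
      | exact hij (by rw [hi', hj'])

/-- A Riesz wavelet collection on the line, not orthogonal, with lattices as translation sets,
whose dilated sets do not cover with constant multiplicity. -/
theorem result : ∃ (Ω Λ : Fin 3 → Set ℝ) (A : Set ℝˣ) (f : (Σ i, Λ i) × A → L2),
    IsRieszCollection Ω Λ A f ∧ (∃ s t, s ≠ t ∧ inner ℂ (f s) (f t) ≠ 0) ∧
    (∀ i, (0 : ℝ) ∈ Λ i) ∧ ∀ k : ℕ, ¬ MultTiling (⋃ i, Ω i) A k := by
  refine ⟨Om, La, AA, ff, ⟨fun i => ⟨measurable_Om i, ?_, ?_⟩, disj_Om, fun i => ?_, ?_, system,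
    rieszff⟩, not_orthogonal, fun i => ⟨0, by simp⟩, not_tiling⟩
  · rw [vol_Om]; norm_num
  · rw [vol_Om]; norm_num
  · exact Set.countable_range _
  · exact Set.countable_range _

end Pool.Agent.Results.MP_38bcdd_an.Dyadic
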